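import Mathlib
import Pool.Graph.R_pool_sql_team_8f841797.H1.KoeA

set_option autoImplicit false

namespace Pool.Agent.Results.MP_c979e5_an.LeastDegree

open Polynomial Metric

/-- the conjectured Koebe radius `1/(4 cos²(π/(N+2)))` -/
noncomputable def Value (N : ℕ) : ℝ := 1 / (4 * Real.cos (Real.pi / ((N : ℝ) + 2)) ^ 2)

/-- `p` belongs to the class `P_N` -/
def InClass (N : ℕ) (p : ℂ[X]) : Prop :=
  p.natDegree = N ∧ p.coeff 0 = 0 ∧ p.coeff 1 = 1 ∧
    Set.InjOn (fun z => p.eval z) (ball (0 : ℂ) 1)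

/-- the image of the unit disc covers the disc of radius `r` -/
def Covers (p : ℂ[X]) (r : ℝ) : Prop := ball (0 : ℂ) r ⊆ (fun z => p.eval z) '' ball (0 : ℂ) 1

/-- `p` is a rotation of `F_N` -/
def IsRotation (N : ℕ) (p : ℂ[X]) : Prop :=
  ∃ α : ℝ, ∀ z : ℂ, p.eval z =
    Complex.exp (-((α : ℂ) * Complex.I)) *
      ∑ j ∈ Finset.Icc 1 N,
        (((Polynomial.derivative (Polynomial.Chebyshev.U ℝ ((N : ℤ) - (j : ℤ) + 1))).eval
              (Real.cos (Real.pi / ((N : ℝ) + 2))) *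
            (Polynomial.Chebyshev.U ℝ ((j : ℤ) - 1)).eval
              (Real.cos (Real.pi / ((N : ℝ) + 2))) /
            (Polynomial.derivative (Polynomial.Chebyshev.U ℝ (N : ℤ))).eval
              (Real.cos (Real.pi / ((N : ℝ) + 2))) : ℝ) : ℂ) *
          (z * Complex.exp ((α : ℂ) * Complex.I)) ^ j

/-- the conjecture for degree `N` -/
def Holds (N : ℕ) : Prop :=
  (∀ p, InClass N p → Covers p (Value N)) ∧
  (∀ p, (InClass N p ∧ Covers p (Value N) ∧ ∀ r, Value N < r → ¬ Covers p r) ↔ IsRotation N p)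

lemma quadInj (a : ℂ) : Set.InjOn (fun z => z + a * z ^ 2) (ball (0 : ℂ) 1) ↔ ‖a‖ ≤ 1 / 2 := by
  constructor
  · intro h
    by_contra hlt
    push Not at hlt
    have ha : a ≠ 0 := by rintro rfl; simp at hlt; linarith
    obtain ⟨c, hc⟩ : ∃ c, c = -1 / (2 * a) := ⟨_, rfl⟩
    have hca : 1 + 2 * a * c = 0 := by rw [hc]; field_simp; ring
    have hcn : ‖c‖ < 1 := by
      rw [hc, norm_div, norm_mul, norm_neg, norm_one, Complex.norm_ofNat, div_lt_one (by positivity)]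
      linarith
    obtain ⟨ε, hε⟩ : ∃ ε : ℝ, ε = (1 - ‖c‖) / 2 := ⟨_, rfl⟩
    have hε0 : 0 < ε := by rw [hε]; linarith
    have e : c + ε = c - ε := by
      refine h (mem_ball_zero_iff.2 ?_) (mem_ball_zero_iff.2 ?_) ?_
      · refine (norm_add_le _ _).trans_lt ?_
        rw [Complex.norm_real, Real.norm_of_nonneg hε0.le]; linarith
      · refine (norm_sub_le _ _).trans_lt ?_
        rw [Complex.norm_real, Real.norm_of_nonneg hε0.le]; linarith
      · simp only
        linear_combination 2 * ε * hca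
    have : (ε : ℂ) = 0 := by linear_combination e / 2
    exact hε0.ne' (by exact_mod_cast this)
  · intro h z hz w hw e
    simp only at e
    have : (z - w) * (1 + a * (z + w)) = 0 := by linear_combination e
    rcases mul_eq_zero.1 this with h1 | h1
    · exact sub_eq_zero.1 h1
    · exfalso
      have h2 : a * (z + w) = -1 := by linear_combination h1
      have h3 := congrArg norm h2
      rw [norm_mul, norm_neg, norm_one] at h3
      have h4 := norm_add_le z w
      have h5 := mem_ball_zero_iff.1 hz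
      have h6 := mem_ball_zero_iff.1 hw
      nlinarith [norm_nonneg a, norm_nonneg (z + w)]

lemma quadCover {a : ℂ} (ha : a ≠ 0) (h : ‖a‖ ≤ 1 / 2) (r : ℝ) :
    ball (0 : ℂ) r ⊆ (fun z => z + a * z ^ 2) '' ball (0 : ℂ) 1 ↔ r ≤ 1 - ‖a‖ := by
  have hn : 0 < ‖a‖ := norm_pos_iff.2 ha
  constructor
  · intro hc
    by_contra hr
    push Not at hr
    obtain ⟨z0, hz0⟩ : ∃ z0 : ℂ, z0 = -(‖a‖ : ℂ) / a := ⟨_, rfl⟩
    have hz0n : ‖z0‖ = 1 := by
      rw [hz0, norm_div, norm_neg, Complex.norm_real, norm_norm, div_self hn.ne']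
    have haz : a * z0 = -(‖a‖ : ℂ) := by rw [hz0]; field_simp
    have hw : z0 + a * z0 ^ 2 = z0 * ((1 - ‖a‖ : ℝ) : ℂ) := by
      push_cast; linear_combination z0 * haz
    obtain ⟨z, hz, e⟩ := hc (show z0 + a * z0 ^ 2 ∈ ball (0 : ℂ) r by
      rw [mem_ball_zero_iff, hw, norm_mul, hz0n, Complex.norm_real, one_mul,
        Real.norm_of_nonneg (by linarith)]
      exact hr)
    simp only at e
    have hz' := mem_ball_zero_iff.1 hz
    have : (z - z0) * (1 + a * (z + z0)) = 0 := by linear_combination e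
    rcases mul_eq_zero.1 this with h1 | h1
    · rw [sub_eq_zero.1 h1, hz0n] at hz'; exact lt_irrefl _ hz'
    · have h2 : a * (z + z0) = -1 := by linear_combination h1
      have h3 := congrArg norm h2
      rw [norm_mul, norm_neg, norm_one] at h3
      have h4 := norm_add_le z z0
      nlinarith [norm_nonneg a, norm_nonneg (z + z0)]
  · intro hr w hw
    have hw' := mem_ball_zero_iff.1 hw
    obtain ⟨δ, hδ⟩ := IsAlgClosed.exists_pow_nat_eq (1 + 4 * a * w) two_pos
    have key : ∀ z z' : ℂ, a * (z + z') = -1 → a * (z * z') = -w → ‖z‖ < 1 ∨ ‖z'‖ < 1 := by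
      intro z z' h1 h2
      by_contra hcon
      push Not at hcon
      obtain ⟨c1, c2⟩ := hcon
      have h3 := congrArg norm h1
      have h4 := congrArg norm h2
      rw [norm_mul, norm_neg, norm_one] at h3
      rw [norm_mul, norm_mul, norm_neg] at h4
      have h5 := norm_add_le z z'
      have h6 : ‖a‖ * ‖z + z'‖ ≤ ‖a‖ * (‖z‖ + ‖z'‖) := by gcongr
      nlinarith [mul_nonneg hn.le (mul_nonneg (sub_nonneg.2 c1) (sub_nonneg.2 c2))]
    have e1 : a * ((-1 + δ) / (2 * a) + (-1 - δ) / (2 * a)) = -1 := by field_simp; ring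
    have e2 : a * ((-1 + δ) / (2 * a) * ((-1 - δ) / (2 * a))) = -w := by
      field_simp
      linear_combination -hδ
    rcases key _ _ e1 e2 with h1 | h1
    · exact ⟨_, mem_ball_zero_iff.2 h1, by simp only; field_simp; linear_combination hδ⟩
    · exact ⟨_, mem_ball_zero_iff.2 h1, by simp only; field_simp; linear_combination hδ⟩

lemma value1 : Value 1 = 1 := by
  have : Real.pi / (((1 : ℕ) : ℝ) + 2) = Real.pi / 3 := by norm_num
  rw [Value, this, Real.cos_pi_div_three]; norm_num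

lemma value2 : Value 2 = 1 / 2 := by
  have : Real.pi / (((2 : ℕ) : ℝ) + 2) = Real.pi / 4 := by norm_num
  rw [Value, this, Real.cos_pi_div_four, div_pow, Real.sq_sqrt (by norm_num)]; norm_num

lemma rot1 (p : ℂ[X]) : IsRotation 1 p ↔ p = X := by
  have h1 : Polynomial.Chebyshev.U ℝ 1 = 2 * X := Polynomial.Chebyshev.U_one ℝ
  have h0 : Polynomial.Chebyshev.U ℝ 0 = 1 := Polynomial.Chebyshev.U_zero ℝ
  have key : ∀ (α : ℝ) (z : ℂ), Complex.exp (-((α : ℂ) * Complex.I)) *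
      ∑ j ∈ Finset.Icc (1 : ℕ) 1,
        (((Polynomial.derivative (Polynomial.Chebyshev.U ℝ (((1 : ℕ) : ℤ) - (j : ℤ) + 1))).eval
              (Real.cos (Real.pi / (((1 : ℕ) : ℝ) + 2))) *
            (Polynomial.Chebyshev.U ℝ ((j : ℤ) - 1)).eval
              (Real.cos (Real.pi / (((1 : ℕ) : ℝ) + 2))) /
            (Polynomial.derivative (Polynomial.Chebyshev.U ℝ ((1 : ℕ) : ℤ))).eval
              (Real.cos (Real.pi / (((1 : ℕ) : ℝ) + 2))) : ℝ) : ℂ) *
          (z * Complex.exp ((α : ℂ) * Complex.I)) ^ j = z := by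
    intro α z
    have e : Complex.exp (-((α : ℂ) * Complex.I)) * Complex.exp ((α : ℂ) * Complex.I) = 1 := by
      rw [← Complex.exp_add]; simp
    rw [Finset.Icc_self, Finset.sum_singleton]
    norm_num [h1, h0]
    linear_combination z * e
  constructor
  · rintro ⟨α, h⟩
    apply Polynomial.funext
    intro z
    rw [h z, key, eval_X]
  · rintro rfl
    exact ⟨0, fun z => by rw [key, eval_X]⟩

lemma rot2 (p : ℂ[X]) : IsRotation 2 p ↔ ∃ a : ℂ, ‖a‖ = 1 / 2 ∧ p = X + C a * X ^ 2 := by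
  have h2 : Polynomial.Chebyshev.U ℝ 2 = 4 * X ^ 2 - 1 := Polynomial.Chebyshev.U_two ℝ
  have h1 : Polynomial.Chebyshev.U ℝ 1 = 2 * X := Polynomial.Chebyshev.U_one ℝ
  have h0 : Polynomial.Chebyshev.U ℝ 0 = 1 := Polynomial.Chebyshev.U_zero ℝ
  have hc : Real.cos (Real.pi / (((2 : ℕ) : ℝ) + 2)) ≠ 0 := by
    have : Real.pi / (((2 : ℕ) : ℝ) + 2) = Real.pi / 4 := by norm_num
    rw [this, Real.cos_pi_div_four]; positivity
  have key : ∀ (α : ℝ) (z : ℂ), Complex.exp (-((α : ℂ) * Complex.I)) *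
      ∑ j ∈ Finset.Icc (1 : ℕ) 2,
        (((Polynomial.derivative (Polynomial.Chebyshev.U ℝ (((2 : ℕ) : ℤ) - (j : ℤ) + 1))).eval
              (Real.cos (Real.pi / (((2 : ℕ) : ℝ) + 2))) *
            (Polynomial.Chebyshev.U ℝ ((j : ℤ) - 1)).eval
              (Real.cos (Real.pi / (((2 : ℕ) : ℝ) + 2))) /
            (Polynomial.derivative (Polynomial.Chebyshev.U ℝ ((2 : ℕ) : ℤ))).eval
              (Real.cos (Real.pi / (((2 : ℕ) : ℝ) + 2))) : ℝ) : ℂ) *
          (z * Complex.exp ((α : ℂ) * Complex.I)) ^ j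
        = z + (Complex.exp ((α : ℂ) * Complex.I) / 2) * z ^ 2 := by
    intro α z
    obtain ⟨c, hcd⟩ : ∃ c, c = Real.cos (Real.pi / (((2 : ℕ) : ℝ) + 2)) := ⟨_, rfl⟩
    rw [← hcd] at hc ⊢
    have e : Complex.exp (-((α : ℂ) * Complex.I)) * Complex.exp ((α : ℂ) * Complex.I) = 1 := by
      rw [← Complex.exp_add]; simp
    rw [show Finset.Icc (1 : ℕ) 2 = {1, 2} from rfl, Finset.sum_pair (by norm_num)]
    have k1 : (Polynomial.derivative (Polynomial.Chebyshev.U ℝ
        (((2 : ℕ) : ℤ) - ((1 : ℕ) : ℤ) + 1))).eval c * (Polynomial.Chebyshev.U ℝ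
        (((1 : ℕ) : ℤ) - 1)).eval c / (Polynomial.derivative (Polynomial.Chebyshev.U ℝ
        ((2 : ℕ) : ℤ))).eval c = 1 := by
      norm_num [h2, h1, h0, hc]
    have k2 : (Polynomial.derivative (Polynomial.Chebyshev.U ℝ
        (((2 : ℕ) : ℤ) - ((2 : ℕ) : ℤ) + 1))).eval c * (Polynomial.Chebyshev.U ℝ
        (((2 : ℕ) : ℤ) - 1)).eval c / (Polynomial.derivative (Polynomial.Chebyshev.U ℝ
        ((2 : ℕ) : ℤ))).eval c = 1 / 2 := by
      norm_num [h2, h1, h0, hc]
      field_simp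
      norm_num
    rw [k1, k2]
    push_cast
    linear_combination (z + z ^ 2 * Complex.exp ((α : ℂ) * Complex.I) / 2) * e
  constructor
  · rintro ⟨α, h⟩
    refine ⟨Complex.exp ((α : ℂ) * Complex.I) / 2, ?_, ?_⟩
    · rw [norm_div, Complex.norm_exp_ofReal_mul_I, Complex.norm_ofNat]
    · apply Polynomial.funext
      intro z
      rw [h z, key]
      simp
  · rintro ⟨a, ha, rfl⟩
    refine ⟨Complex.arg (2 * a), fun z => ?_⟩
    rw [key]
    have h3 := Complex.norm_mul_exp_arg_mul_I (2 * a)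
    rw [norm_mul, ha, Complex.norm_ofNat] at h3
    have h4 : Complex.exp ((Complex.arg (2 * a) : ℂ) * Complex.I) = 2 * a := by
      have h5 : ((2 * (1 / 2) : ℝ) : ℂ) = 1 := by norm_num
      rw [h5, one_mul] at h3
      exact h3
    rw [h4]
    simp

lemma holds1 : Holds 1 := by
  have hX : ∀ p, InClass 1 p → p = X := by
    rintro p ⟨h1, h2, h3, -⟩
    rw [Polynomial.eq_X_add_C_of_natDegree_le_one h1.le, h2, h3]; simp
  have hc : Covers X 1 := fun z hz => ⟨z, hz, by simp⟩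
  refine ⟨fun p hp => ?_, fun p => ?_⟩
  · rw [hX p hp, value1]; exact hc
  · rw [rot1, value1]
    constructor
    · rintro ⟨h, -⟩; exact hX p h
    · rintro rfl
      refine ⟨⟨natDegree_X, by simp, by simp, fun z _ w _ h => by simpa using h⟩, hc, ?_⟩
      intro r hr h
      obtain ⟨z, hz, e⟩ := h (show (1 : ℂ) ∈ ball (0 : ℂ) r by simpa using hr)
      simp only [eval_X] at e
      rw [e] at hz
      simp at hz

lemma class2 {p : ℂ[X]} (h : InClass 2 p) : ∃ a : ℂ, a ≠ 0 ∧ ‖a‖ ≤ 1 / 2 ∧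
    p = X + C a * X ^ 2 := by
  obtain ⟨h1, h2, h3, h4⟩ := h
  have e : p = X + C (p.coeff 2) * X ^ 2 := by
    conv_lhs => rw [p.as_sum_range_C_mul_X_pow, h1]
    simp [Finset.sum_range_succ, h2, h3]
  have ha : p.coeff 2 ≠ 0 := by
    rw [← h1]
    exact leadingCoeff_ne_zero.2 (by rintro rfl; simp at h3)
  refine ⟨p.coeff 2, ha, ?_, e⟩
  rw [← quadInj]
  intro z hz w hw hzw
  refine h4 hz hw ?_
  simp only at hzw ⊢
  rw [e]
  simpa using hzw

lemma holds2 : Holds 2 := by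
  have hcov : ∀ (a : ℂ) (r : ℝ), a ≠ 0 → ‖a‖ ≤ 1 / 2 →
      (Covers (X + C a * X ^ 2) r ↔ r ≤ 1 - ‖a‖) := by
    intro a r ha h
    rw [← quadCover ha h r]
    simp [Covers]
  refine ⟨fun p hp => ?_, fun p => ?_⟩
  · obtain ⟨a, ha, h, rfl⟩ := class2 hp
    rw [hcov a _ ha h, value2]; linarith
  · rw [rot2, value2]
    constructor
    · rintro ⟨hp, -, hno⟩
      obtain ⟨a, ha, h, rfl⟩ := class2 hp
      refine ⟨a, le_antisymm h ?_, rfl⟩
      by_contra hlt
      push Not at hlt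
      exact hno (1 - ‖a‖) (by linarith) ((hcov a _ ha h).2 le_rfl)
    · rintro ⟨a, h, rfl⟩
      have ha : a ≠ 0 := by rintro rfl; simp at h
      refine ⟨⟨?_, by simp, by simp [coeff_X_pow], ?_⟩, (hcov a _ ha h.le).2 (by linarith), ?_⟩
      · compute_degree!
      · have := (quadInj a).2 h.le
        simpa using this
      · intro r hr hc
        have := (hcov a _ ha h.le).1 hc
        linarith

lemma third : 3812 / 10000 < Value 3 := by
  have s := Real.sq_sqrt (show (0 : ℝ) ≤ 5 by norm_num)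
  have s0 := Real.sqrt_nonneg 5
  rw [Value, show ((3 : ℕ) : ℝ) + 2 = 5 by norm_num, Real.cos_pi_div_five]
  refine (lt_div_iff₀ (by positivity)).2 ?_
  have : √5 < 224 / 100 := by nlinarith
  nlinarith

open Pool.Agent.H1.Koe Complex in
/-- the library's cubic -/
lemma cubic : ∃ p : ℂ[X], p.natDegree = 3 ∧ p.coeff 0 = 0 ∧ p.coeff 1 = 1 ∧
    Set.InjOn (fun z => p.eval z) (closedBall (0 : ℂ) 1) ∧
    ∃ w : ℂ, ‖w‖ < 3812 / 10000 ∧ w ∉ (fun z => p.eval z) '' ball (0 : ℂ) 1 := by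
  have hi := inj (a := ⟨89 / 100, 1 / 10⟩) (b := ⟨27 / 100, 7 / 100⟩)
    (fun e => by simpa using congrArg re e) fun u u0 u4 => ⟨by
      have : ‖(⟨27 / 100, 7 / 100⟩ : ℂ)‖ ≤ 1 / 3 := by
        rw [← sq_le_sq₀ (norm_nonneg _) (by norm_num), Complex.sq_norm, normSq_mk]; norm_num
      have : |u - 1| ≤ 3 := abs_le.2 ⟨by linarith, by linarith⟩
      nlinarith [abs_nonneg (u - 1), norm_nonneg (⟨27 / 100, 7 / 100⟩ : ℂ)], by
      simp [normSq_apply]
      have := sub_nonneg.2 u4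
      nlinarith [mul_nonneg (sq_nonneg (u - 263 / 100)) this,
        mul_nonneg (mul_nonneg (sq_nonneg (u - 263 / 100)) this) this, sq_nonneg (u - 263 / 100)]⟩
  set a : ℂ := ⟨89 / 100, 1 / 10⟩ with ha
  set b : ℂ := ⟨27 / 100, 7 / 100⟩ with hb
  have b0 : b ≠ 0 := fun e => by simpa [hb] using congrArg re e
  have e : (fun z => (X + C a * X ^ 2 + C b * X ^ 3).eval z) = fun z => z + a * z ^ 2 + b * z ^ 3 := by
    ext; simp
  refine ⟨X + C a * X ^ 2 + C b * X ^ 3, by compute_degree!, by simp, by simp [coeff_X_pow],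
    e ▸ hi, -1 + a * (-1) ^ 2 + b * (-1) ^ 3, ?_, ?_⟩
  · rw [← sq_lt_sq₀ (norm_nonneg _) (by norm_num), Complex.sq_norm, normSq_apply]
    norm_num [ha, hb]
  · rw [e]
    rintro ⟨z, hz, k⟩
    rw [hi (Metric.ball_subset_closedBall hz) (by simp) k] at hz
    simp at hz

/-- The conjecture holds for `N = 1` and `N = 2`; it fails for `N = 3`, by a definite amount and
for a polynomial univalent on the closed disc. -/
theorem result :
    Holds 1 ∧ Holds 2 ∧
    (∃ p : ℂ[X], p.natDegree = 3 ∧ p.coeff 0 = 0 ∧ p.coeff 1 = 1 ∧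
      Set.InjOn (fun z => p.eval z) (closedBall (0 : ℂ) 1) ∧
      ∃ w : ℂ, ‖w‖ < 3812 / 10000 ∧ w ∉ (fun z => p.eval z) '' ball (0 : ℂ) 1) ∧
    (∃ p : ℂ[X], InClass 3 p ∧ ∀ r, 3812 / 10000 ≤ r → ¬ Covers p r) ∧
    3812 / 10000 < Value 3 ∧ ¬ Holds 3 := by
  obtain ⟨p, p1, p2, p3, p4, w, w1, w2⟩ := cubic
  have hp : InClass 3 p := ⟨p1, p2, p3, p4.mono ball_subset_closedBall⟩
  have hc : ∀ r, 3812 / 10000 ≤ r → ¬ Covers p r := fun r hr h =>
    w2 (h (mem_ball_zero_iff.2 (w1.trans_le hr)))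
  exact ⟨holds1, holds2, ⟨p, p1, p2, p3, p4, w, w1, w2⟩, ⟨p, hp, hc⟩, third,
    fun h => hc _ third.le (h.1 p hp)⟩

end Pool.Agent.Results.MP_c979e5_an.LeastDegree
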